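import Mathlib

/-!
# The linear dimension of the action of `S_n` on bisections in characteristic two
-/

open Equiv

namespace Pool.Agent.Results.MP_bfdf54_al.Bisections

/-- There is a `d`-dimensional representation of the action of `G` on `Ω` over `F`. -/
def HasRep (F G Ω : Type) [Field F] [Group G] [MulAction G Ω] (d : ℕ) : Prop :=
  ∃ (V : Type) (_ : AddCommGroup V) (_ : Module F V) (ρ : Representation F G V) (φ : Ω → V),
    Module.Finite F V ∧ Module.finrank F V = d ∧ Function.Injective φ ∧
      ∀ g ω, φ (g • ω) = ρ g (φ ω)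

/-- The linear dimension of an action. -/
noncomputable def lindim (F G Ω : Type) [Field F] [Group G] [MulAction G Ω] : ℕ :=
  sInf {d | HasRep F G Ω d}

/-- Primitive actions: transitive, and the only invariant partitions are the two trivial ones. -/
def Primitive (G Ω : Type) [Group G] [MulAction G Ω] : Prop :=
  (Nonempty Ω ∧ ∀ a b : Ω, ∃ g : G, g • a = b) ∧
    ∀ r : Setoid Ω, (∀ (g : G) a b, r a b → r (g • a) (g • b)) → r = ⊥ ∨ r = ⊤

/-- The action is equivalent to the action of `S_n` on the `k`-element subsets. -/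
def IsSubsetAction (n k : ℕ) (Ω : Type) [MulAction (Perm (Fin n)) Ω] : Prop :=
  ∃ e : Ω ≃ {s : Finset (Fin n) // s.card = k},
    ∀ (g : Perm (Fin n)) (ω : Ω), (e (g • ω)).1 = (e ω).1.map g.toEmbedding

/-- The statement of the problem. -/
def Q1 : Prop :=
  ∃ n₀ : ℕ, ∀ n ≥ n₀, ∀ (F : Type) [Field F] (Ω : Type) [Finite Ω] [MulAction (Perm (Fin n)) Ω],
    FaithfulSMul (Perm (Fin n)) Ω → Primitive (Perm (Fin n)) Ω →
      (∀ k, ¬ IsSubsetAction n k Ω) →
        ((n : ℝ) ^ 2 - 3 * n) / 2 ≤ (lindim F (Perm (Fin n)) Ω : ℝ)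

/-! ### The module -/

variable {n : ℕ}

/-- The line of constant functions. -/
abbrev W (n : ℕ) : Submodule (ZMod 2) (Fin n → ZMod 2) := Submodule.span (ZMod 2) {fun _ => 1}

/-- The module of functions modulo constants. -/
abbrev V (n : ℕ) : Type := (Fin n → ZMod 2) ⧸ W n

/-- The indicator function. -/
def ind (s : Finset (Fin n)) : Fin n → ZMod 2 := fun i => if i ∈ s then 1 else 0

/-- The class of the indicator function. -/
def pt (s : Finset (Fin n)) : V n := (W n).mkQ (ind s)

theorem ind_compl (s : Finset (Fin n)) : ind sᶜ = ind s + fun _ => 1 := by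
  funext i
  by_cases h1 : i ∈ s
  · simp only [ind, Finset.mem_compl, Pi.add_apply, h1, not_true_eq_false, if_true, if_false]
    decide
  · simp only [ind, Finset.mem_compl, Pi.add_apply, h1, not_false_eq_true, if_true, if_false]
    decide

theorem ind_inj {s t : Finset (Fin n)} (h : ind s = ind t) : s = t := by
  ext i
  have := congrFun h i
  simp only [ind] at this
  split_ifs at this with h1 h2 h2
  · simp [h1, h2]
  · exact absurd this (by decide)
  · exact absurd this (by decide)
  · simp [h1, h2]

theorem pt_eq {s t : Finset (Fin n)} : pt s = pt t ↔ s = t ∨ s = tᶜ := by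
  constructor
  · intro h
    have h1 : ind s - ind t ∈ W n := (Submodule.Quotient.eq _).mp h
    rw [Submodule.mem_span_singleton] at h1
    obtain ⟨c, hc⟩ := h1
    have hc2 : ∀ c : ZMod 2, c = 0 ∨ c = 1 := by decide
    rcases hc2 c with rfl | rfl
    · left
      apply ind_inj
      rw [zero_smul] at hc
      exact sub_eq_zero.mp hc.symm
    · right
      apply ind_inj
      rw [one_smul] at hc
      rw [ind_compl, hc]
      abel
  · rintro (rfl | rfl)
    · rfl
    · unfold pt
      rw [ind_compl, map_add]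
      have : (W n).mkQ (fun _ => 1) = 0 :=
        (Submodule.Quotient.mk_eq_zero _).mpr (Submodule.mem_span_singleton_self _)
      rw [this, add_zero]

/-- The permutation of coordinates. -/
def pm (g : Perm (Fin n)) : (Fin n → ZMod 2) →ₗ[ZMod 2] (Fin n → ZMod 2) :=
  LinearMap.funLeft (ZMod 2) (ZMod 2) g.symm

theorem pm_W (g : Perm (Fin n)) : W n ≤ (W n).comap (pm g) := by
  rw [Submodule.span_le]
  rintro _ rfl
  exact Submodule.mem_span_singleton_self _

/-- The representation. -/
def ρ (n : ℕ) : Representation (ZMod 2) (Perm (Fin n)) (V n) where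
  toFun g := (W n).mapQ (W n) (pm g) (pm_W g)
  map_one' := by
    apply Submodule.linearMap_qext
    rfl
  map_mul' g h := by
    apply Submodule.linearMap_qext
    rfl

theorem ρ_pt (g : Perm (Fin n)) (s : Finset (Fin n)) :
    ρ n g (pt s) = pt (s.map g.toEmbedding) := by
  show (W n).mkQ (pm g (ind s)) = (W n).mkQ (ind (s.map g.toEmbedding))
  congr 1
  funext i
  show (if g.symm i ∈ s then (1 : ZMod 2) else 0) = if i ∈ s.map g.toEmbedding then 1 else 0
  simp only [Finset.mem_map_equiv]

theorem finrank_V (hn : 0 < n) : Module.finrank (ZMod 2) (V n) = n - 1 := by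
  have h1 := Submodule.finrank_quotient_add_finrank (W n)
  have h2 : Module.finrank (ZMod 2) (W n) = 1 := by
    apply finrank_span_singleton
    intro h
    have h0 : (1 : ZMod 2) = 0 := congrFun h ⟨0, hn⟩
    exact absurd h0 (by decide)
  rw [h2, Module.finrank_fin_fun] at h1
  have h3 : Module.finrank (ZMod 2) (V n) + 1 = n := h1
  omega

/-! ### The action on bisections -/

variable (m : ℕ)

/-- The bisections of `{1, …, 2m}`, embedded in the module. -/
def Om : Type := {v : V (2 * m) // ∃ s : Finset (Fin (2 * m)), s.card = m ∧ v = pt s}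

/-- The bisection of an `m`-subset. -/
def om {m : ℕ} (s : Finset (Fin (2 * m))) (hs : s.card = m) : Om m := ⟨pt s, s, hs, rfl⟩

instance : MulAction (Perm (Fin (2 * m))) (Om m) where
  smul g v := ⟨ρ _ g v.1, by
    obtain ⟨s, hs, h⟩ := v.2
    exact ⟨s.map g.toEmbedding, by rw [Finset.card_map, hs], by rw [h, ρ_pt]⟩⟩
  one_smul v := Subtype.ext (by
    show ρ _ 1 v.1 = v.1
    rw [map_one]; rfl)
  mul_smul g h v := Subtype.ext (by
    show ρ _ (g * h) v.1 = ρ _ g (ρ _ h v.1)
    rw [map_mul]; rfl)

instance : Finite (Om m) := by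
  have : Finite (V (2 * m)) := Finite.of_surjective _ (Submodule.mkQ_surjective (W (2 * m)))
  exact Subtype.finite

variable {m}

theorem smul_om (g : Perm (Fin (2 * m))) (s : Finset (Fin (2 * m))) (hs : s.card = m) :
    g • om s hs = om (s.map g.toEmbedding) (by rw [Finset.card_map, hs]) :=
  Subtype.ext (ρ_pt g s)

theorem om_eq {s t : Finset (Fin (2 * m))} {hs : s.card = m} {ht : t.card = m} :
    om s hs = om t ht ↔ s = t ∨ s = tᶜ := by
  rw [← pt_eq]
  exact Subtype.ext_iff

theorem exists_om (ω : Om m) : ∃ s hs, ω = om s hs := by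
  obtain ⟨v, s, hs, h⟩ := ω
  exact ⟨s, hs, Subtype.ext h⟩

theorem card_compl {s : Finset (Fin (2 * m))} (hs : s.card = m) : sᶜ.card = m := by
  rw [Finset.card_compl, hs, Fintype.card_fin]
  omega

/-- Two subsets of the same cardinality are in the same orbit. -/
theorem exists_map {n : ℕ} {s t : Finset (Fin n)} (h : s.card = t.card) :
    ∃ g : Perm (Fin n), s.map g.toEmbedding = t := by
  have e : {x // x ∈ s} ≃ {x // x ∈ t} := Finset.equivOfCardEq h
  refine ⟨e.extendSubtype, ?_⟩
  apply Finset.eq_of_subset_of_card_le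
  · intro y hy
    rw [Finset.mem_map] at hy
    obtain ⟨x, hx, rfl⟩ := hy
    exact e.extendSubtype_mem x hx
  · rw [Finset.card_map, h]

theorem map_swap_eq {n : ℕ} {s : Finset (Fin n)} {x y : Fin n} (h : x ∈ s ↔ y ∈ s) :
    s.map (swap x y).toEmbedding = s := by
  ext z
  rw [Finset.mem_map_equiv, symm_swap]
  by_cases hzx : z = x
  · rw [hzx, swap_apply_left]; exact h.symm
  · by_cases hzy : z = y
    · rw [hzy, swap_apply_right]; exact h
    · rw [swap_apply_of_ne_of_ne hzx hzy]

theorem map_mul' {n : ℕ} (g h : Perm (Fin n)) (s : Finset (Fin n)) :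
    s.map (g * h).toEmbedding = (s.map h.toEmbedding).map g.toEmbedding := by
  rw [Finset.map_map]
  rfl

theorem primitive (hm : 1 ≤ m) : Primitive (Perm (Fin (2 * m))) (Om m) := by
  have htrans : ∀ a b : Om m, ∃ g : Perm (Fin (2 * m)), g • a = b := by
    intro a b
    obtain ⟨s, hs, rfl⟩ := exists_om a
    obtain ⟨t, ht, rfl⟩ := exists_om b
    obtain ⟨g, hg⟩ := exists_map (hs.trans ht.symm)
    refine ⟨g, ?_⟩
    rw [smul_om, om_eq]
    exact Or.inl hg
  have hne : Nonempty (Om m) := by
    obtain ⟨s, _, hs⟩ := Finset.exists_subset_card_eq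
      (s := (Finset.univ : Finset (Fin (2 * m)))) (n := m) (by
        rw [Finset.card_univ, Fintype.card_fin]; omega)
    exact ⟨om s hs⟩
  refine ⟨⟨hne, htrans⟩, ?_⟩
  intro r hr
  by_cases hbot : r = ⊥
  · exact Or.inl hbot
  right
  obtain ⟨a, b, hab, hne'⟩ : ∃ a b, r a b ∧ a ≠ b := by
    by_contra hcon
    push Not at hcon
    apply hbot
    apply Setoid.ext
    intro a b
    constructor
    · exact fun h => hcon a b h
    · intro h
      have h' : a = b := h
      rw [h']
  obtain ⟨s, hs, rfl⟩ := exists_om a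
  obtain ⟨t, ht, rfl⟩ := exists_om b
  rw [Ne, om_eq] at hne'
  push Not at hne'
  obtain ⟨hst, hstc⟩ := hne'
  -- an element of `t` outside of `s`
  obtain ⟨x, hxt, hxs⟩ : ∃ x ∈ t, x ∉ s := by
    by_contra hcon
    push Not at hcon
    exact hst (Finset.eq_of_subset_of_card_le hcon (by rw [hs, ht])).symm
  obtain ⟨y, hyt, hys⟩ : ∃ y, y ∉ t ∧ y ∉ s := by
    by_contra hcon
    push Not at hcon
    have h1 : tᶜ ⊆ s := fun y hy => hcon y (Finset.mem_compl.mp hy)
    exact hstc (Finset.eq_of_subset_of_card_le h1 (by rw [hs, card_compl ht])).symm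
  -- the subgroup of the elements moving `ω = om t` inside of its class
  let H : Subgroup (Perm (Fin (2 * m))) :=
    { carrier := {g | r (om t ht) (g • om t ht)}
      mul_mem' := by
        intro g h hg hh
        show r (om t ht) ((g * h) • om t ht)
        rw [mul_smul]
        exact r.trans hg (hr g _ _ hh)
      one_mem' := by
        show r (om t ht) ((1 : Perm (Fin (2 * m))) • om t ht)
        rw [one_smul]
      inv_mem' := by
        intro g hg
        show r (om t ht) (g⁻¹ • om t ht)
        have h1 := hr g⁻¹ _ _ hg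
        rw [inv_smul_smul] at h1
        exact r.symm h1 }
  have hstab : ∀ i j, (i ∈ t ↔ j ∈ t) → swap i j ∈ H := by
    intro i j hij
    show r (om t ht) (swap i j • om t ht)
    have : swap i j • om t ht = om t ht := by
      rw [smul_om, om_eq]
      exact Or.inl (map_swap_eq hij)
    rw [this]
  have hxy : swap x y ∈ H := by
    show r (om t ht) (swap x y • om t ht)
    have h1 := hr (swap x y) _ _ hab
    have h2 : swap x y • om s hs = om s hs := by
      rw [smul_om, om_eq]
      exact Or.inl (map_swap_eq ⟨fun h => absurd h hxs, fun h => absurd h hys⟩)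
    rw [h2] at h1
    exact r.trans (r.symm hab) h1
  have hmixed : ∀ i j, i ∈ t → j ∉ t → swap i j ∈ H := by
    intro i j hi hj
    -- conjugate `swap x y`
    have h1 : swap x i ∈ H := hstab x i ⟨fun _ => hi, fun _ => hxt⟩
    have h2 : swap y j ∈ H := hstab y j ⟨fun h => absurd h hyt, fun h => absurd h hj⟩
    set k := swap x i * swap y j with hk
    have hkH : k ∈ H := mul_mem h1 h2
    have hxy' : x ≠ y := fun h => hyt (h ▸ hxt)
    have hxj : x ≠ j := fun h => hj (h ▸ hxt)
    have hij : i ≠ j := fun h => hj (h ▸ hi)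
    have e1 : k x = i := by
      rw [hk, Perm.mul_apply, swap_apply_of_ne_of_ne hxy' hxj, swap_apply_left]
    have e2 : k y = j := by
      rw [hk, Perm.mul_apply, swap_apply_left, swap_apply_of_ne_of_ne (Ne.symm hxj) (Ne.symm hij)]
    have e3 : k * swap x y * k⁻¹ = swap i j := by
      rw [← e1, ← e2]
      exact (Equiv.swap_apply_apply k x y).symm
    rw [← e3]
    exact mul_mem (mul_mem hkH hxy) (inv_mem hkH)
  have htop : H = ⊤ := by
    rw [eq_top_iff, ← Perm.closure_isSwap, Subgroup.closure_le]
    rintro _ ⟨i, j, _, rfl⟩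
    by_cases hi : i ∈ t
    · by_cases hj : j ∈ t
      · exact hstab i j ⟨fun _ => hj, fun _ => hi⟩
      · exact hmixed i j hi hj
    · by_cases hj : j ∈ t
      · rw [swap_comm]
        exact hmixed j i hj hi
      · exact hstab i j ⟨fun h => absurd h hi, fun h => absurd h hj⟩
  have hall : ∀ c : Om m, r (om t ht) c := by
    intro c
    obtain ⟨g, rfl⟩ := htrans (om t ht) c
    have : g ∈ H := by rw [htop]; trivial
    exact this
  apply Setoid.ext
  intro c d
  constructor
  · intro _
    trivial
  · intro _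
    exact r.trans (r.symm (hall c)) (hall d)

theorem faithful (hm : 3 ≤ m) : FaithfulSMul (Perm (Fin (2 * m))) (Om m) := by
  have key : ∀ g : Perm (Fin (2 * m)), (∀ ω : Om m, g • ω = ω) → g = 1 := by
    intro g hg
    by_contra hne
    obtain ⟨x, hx⟩ : ∃ x, g x ≠ x := by
      by_contra hcon
      push Not at hcon
      exact hne (Equiv.ext hcon)
    obtain ⟨z, hz⟩ : ∃ z, z ∉ ({x, g x} : Finset (Fin (2 * m))) := by
      by_contra hcon
      push Not at hcon
      have h1 : (Finset.univ : Finset (Fin (2 * m))) ⊆ {x, g x} := fun z _ => hcon z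
      have h2 := Finset.card_le_card h1
      rw [Finset.card_univ, Fintype.card_fin] at h2
      have h3 := Finset.card_le_two (a := x) (b := g x)
      omega
    rw [Finset.mem_insert, Finset.mem_singleton] at hz
    push Not at hz
    have hsub : ({x, z, g z} : Finset (Fin (2 * m))) ⊆ Finset.univ.erase (g x) := by
      intro w hw
      rw [Finset.mem_erase]
      refine ⟨?_, Finset.mem_univ _⟩
      simp only [Finset.mem_insert, Finset.mem_singleton] at hw
      rcases hw with rfl | rfl | rfl
      · exact Ne.symm hx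
      · exact hz.2
      · exact fun h => hz.1 (g.injective h)
    obtain ⟨s, hs1, hs2, hs3⟩ := Finset.exists_subsuperset_card_eq hsub
      (n := m) (le_trans Finset.card_le_three hm) (by
        rw [Finset.card_erase_of_mem (Finset.mem_univ _), Finset.card_univ, Fintype.card_fin]
        omega)
    have hxs : x ∈ s := hs1 (by simp)
    have hzs : z ∈ s := hs1 (by simp)
    have hgzs : g z ∈ s := hs1 (by simp)
    have hgxs : g x ∉ s := fun h => (Finset.mem_erase.mp (hs2 h)).1 rfl
    have h1 := hg (om s hs3)
    rw [smul_om, om_eq] at h1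
    rcases h1 with h1 | h1
    · apply hgxs
      rw [← h1]
      exact Finset.mem_map_of_mem g.toEmbedding hxs
    · have h2 : g z ∈ s.map g.toEmbedding := Finset.mem_map_of_mem g.toEmbedding hzs
      rw [h1, Finset.mem_compl] at h2
      exact h2 hgzs
  constructor
  intro g h hgh
  have h1 : h⁻¹ * g = 1 := by
    apply key
    intro ω
    rw [mul_smul, hgh, inv_smul_smul]
  exact (inv_mul_eq_one.mp h1).symm

theorem not_subset (hm : 3 ≤ m) (k : ℕ) : ¬ IsSubsetAction (2 * m) k (Om m) := by
  rintro ⟨e, he⟩
  obtain ⟨s, _, hs⟩ := Finset.exists_subset_card_eq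
    (s := (Finset.univ : Finset (Fin (2 * m)))) (n := m) (by
      rw [Finset.card_univ, Fintype.card_fin]; omega)
  set u := (e (om s hs)).1 with hu
  -- the stabiliser of the bisection is transitive on points
  have hpt : ∀ (t : Finset (Fin (2 * m))) (ht : t.card = m), om t ht = om s hs →
      ∀ i j, i ∈ t → i ∈ u → j ∈ u := by
    intro t ht hts i j hi hiu
    have hfix : ∀ g : Perm (Fin (2 * m)), g • om t ht = om t ht → g i = j → j ∈ u := by
      intro g hg hgi
      have h1 := he g (om t ht)
      rw [hg, hts, ← hu] at h1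
      rw [h1, ← hgi]
      exact Finset.mem_map_of_mem g.toEmbedding hiu
    by_cases hj : j ∈ t
    · apply hfix (swap i j)
      · rw [smul_om, om_eq]
        exact Or.inl (map_swap_eq ⟨fun _ => hj, fun _ => hi⟩)
      · exact swap_apply_left i j
    · obtain ⟨h, hh⟩ := exists_map (s := t) (t := tᶜ) (by rw [ht, card_compl ht])
      apply hfix (swap (h i) j * h)
      · rw [smul_om, om_eq, map_mul', hh]
        right
        apply map_swap_eq
        constructor
        · intro _
          exact Finset.mem_compl.mpr hj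
        · intro _
          rw [← hh]
          exact Finset.mem_map_of_mem h.toEmbedding hi
      · rw [Perm.mul_apply, swap_apply_left]
  have hall : ∀ i j, i ∈ u → j ∈ u := by
    intro i j hiu
    by_cases hi : i ∈ s
    · exact hpt s hs rfl i j hi hiu
    · exact hpt sᶜ (card_compl hs) (om_eq.mpr (Or.inr rfl)) i j (Finset.mem_compl.mpr hi) hiu
  have hmap : ∀ g : Perm (Fin (2 * m)), u.map g.toEmbedding = u := by
    intro g
    rcases Finset.eq_empty_or_nonempty u with h | ⟨i, hi⟩
    · rw [h, Finset.map_empty]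
    · have huniv : u = Finset.univ := Finset.eq_univ_iff_forall.mpr fun j => hall i j hi
      rw [huniv]
      exact Finset.map_univ_equiv g
  have hfix : ∀ g : Perm (Fin (2 * m)), g • om s hs = om s hs := by
    intro g
    apply e.injective
    apply Subtype.ext
    rw [he, ← hu, hmap g]
  have hfix' : ∀ (g : Perm (Fin (2 * m))) (ω : Om m), g • ω = ω := by
    intro g ω
    obtain ⟨h, rfl⟩ := (primitive (by omega)).1.2 (om s hs) ω
    rw [hfix h, hfix g]
  have := faithful hm
  have h1 : swap (⟨0, by omega⟩ : Fin (2 * m)) ⟨1, by omega⟩ = 1 := by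
    apply FaithfulSMul.eq_of_smul_eq_smul (α := Om m)
    intro ω
    rw [hfix', hfix']
  rw [swap_eq_one_iff] at h1
  exact absurd (congrArg Fin.val h1) (by norm_num)

theorem hasRep (hm : 1 ≤ m) : HasRep (ZMod 2) (Perm (Fin (2 * m))) (Om m) (2 * m - 1) :=
  ⟨V (2 * m), inferInstance, inferInstance, ρ _, Subtype.val, inferInstance,
    finrank_V (by omega), Subtype.val_injective, fun _ _ => rfl⟩

/-- **Theorem.** For every `m ≥ 3` the symmetric group `S_{2m}` has a faithful primitive action (on
the bisections), not equivalent to an action on `k`-subsets for any `k`, whose linear dimension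
over the field with two elements is at most `2m - 1`, which is smaller than `(n² - 3n)/2` for
`n = 2m`. Hence the statement of Q1 is false. -/
theorem result :
    (∀ m : ℕ, 3 ≤ m → ∃ (Ω : Type) (_ : Finite Ω) (_ : MulAction (Perm (Fin (2 * m))) Ω),
      FaithfulSMul (Perm (Fin (2 * m))) Ω ∧ Primitive (Perm (Fin (2 * m))) Ω ∧
        (∀ k, ¬ IsSubsetAction (2 * m) k Ω) ∧
          lindim (ZMod 2) (Perm (Fin (2 * m))) Ω ≤ 2 * m - 1) ∧
    ¬ Q1 := by
  have hlin : ∀ m : ℕ, 3 ≤ m → lindim (ZMod 2) (Perm (Fin (2 * m))) (Om m) ≤ 2 * m - 1 :=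
    fun m hm => Nat.sInf_le (hasRep (by omega))
  refine ⟨fun m hm => ⟨Om m, inferInstance, inferInstance, faithful hm, primitive (by omega),
    not_subset hm, hlin m hm⟩, ?_⟩
  rintro ⟨n₀, h⟩
  set m := n₀ + 3 with hm
  have h1 := h (2 * m) (by omega) (ZMod 2) (Om m) (faithful (by omega)) (primitive (by omega))
    (not_subset (by omega))
  have h2 : (lindim (ZMod 2) (Perm (Fin (2 * m))) (Om m) : ℝ) ≤ 2 * m - 1 := by
    have h3 := hlin m (by omega)
    have h4 : lindim (ZMod 2) (Perm (Fin (2 * m))) (Om m) + 1 ≤ 2 * m := by omega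
    have h5 : ((lindim (ZMod 2) (Perm (Fin (2 * m))) (Om m) + 1 : ℕ) : ℝ) ≤ ((2 * m : ℕ) : ℝ) := by
      exact_mod_cast h4
    push_cast at h5
    linarith
  have h3 : (3 : ℝ) ≤ m := by
    rw [hm]
    push_cast
    have : (0 : ℝ) ≤ n₀ := Nat.cast_nonneg n₀
    linarith
  push_cast at h1
  nlinarith

end Pool.Agent.Results.MP_bfdf54_al.Bisections
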